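import Pool.Agent.helper68.B2.Defs3
import Pool.Agent.helper98.B2.GA
import Pool.Agent.helper92.B2.BR
import Pool.Agent.helper49.B2.FR2

/-! # MP_b2b189_gt (S13780), b2:DX4: nontrivial orbits of the gradient field start at a scalar point -/

set_option autoImplicit false

namespace Pool.Agent.helper68.B2

open scoped ContDiff Topology Matrix
open Matrix Set
open Pool.Agent.helper25.B2 (Sol Block)

/-- along an `Np`-curve from a scalar point with `h > 0`: `b = 0`, `u ^ 2 = h a`, `u > 0` for small times -/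
theorem DX4_curve (B : Block E4) (hA : B.A) {q : E4} (hq : q ∈ B.W) (ha : B.a q = 0) (hb : B.b q = 0)
    (hu : B.u q = 0) (hh : 0 < B.h q) {U : Set E4} (hU : U ∈ 𝓝 q) :
    ∃ x ∈ U, x ∈ B.W ∧ B.b x = 0 ∧ B.v x = 0 ∧ B.h x = B.h q ∧ B.s x = B.s q ∧ B.l x = B.l q ∧
      0 < B.u x ∧ B.u x ^ 2 = B.h q * B.a x := by
  obtain ⟨γ, h0, δ, hδ, hγ⟩ := Pool.Agent.helper25.B2.Block.BR_curve B.isOpen_W hq (B.smooth_Np q hq)
  have ht0 : (0 : ℝ) ∈ Ioo (-δ) δ := ⟨by linarith, hδ⟩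
  have hH := Pool.Agent.helper25.B2.Block.block_H B hA ordConnected_Ioo hγ ht0 (by rw [h0]; exact hb)
  rw [h0] at hH
  have hcont : ContinuousAt γ 0 := (hγ.hasDerivAt ht0).continuousAt
  have hW : ∀ t ∈ Ioo (-δ) δ, γ t ∈ B.W := fun t ht => hγ.mem ht
  have hq0 : γ 0 ∈ B.W := hW 0 ht0
  -- the function `u ^ 2 - h a`
  have hw : ∀ t ∈ Ioo (-δ) δ, B.u (γ t) * B.u (γ t) - B.h q * B.a (γ t) = 0 := by
    refine Pool.Agent.helper25.B2.Block.BH_linear (p := fun t => -2 * B.om (γ t) (B.Np (γ t)))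
      ordConnected_Ioo ?_ ?_ ht0 ?_
    · intro t ht
      have hx := hW t ht
      have du := Pool.Agent.helper25.B2.Block.BH_along hγ ht (B.smooth_u _ hx)
      have da := Pool.Agent.helper25.B2.Block.BH_along hγ ht (B.smooth_a _ hx)
      refine ((du.mul du).sub (da.const_mul (B.h q))).congr_deriv ?_
      unfold Pool.Agent.helper25.B2.Block.BHD
      rw [B.du_Np _ hx, B.da _ hx, B.cp_Np _ hx, (hH t ht).2.2.1]
      ring
    · intro t ht
      have hx := hW t ht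
      have h1 : ContinuousAt (fun x => B.om x (B.Np x)) (γ t) :=
        ((B.smooth_om _ hx).clm_apply (B.smooth_Np _ hx)).continuousAt
      have h2 : ContinuousAt γ t := (hγ.hasDerivAt ht).continuousAt
      have h3 : ContinuousAt (fun t => B.om (γ t) (B.Np (γ t))) t :=
        ContinuousAt.comp (g := fun x => B.om x (B.Np x)) h1 h2
      exact (h3.const_mul (-2)).continuousWithinAt
    · show B.u (γ 0) * B.u (γ 0) - B.h q * B.a (γ 0) = 0
      rw [h0, hu, ha]; ring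
  -- `u > 0` for small positive times
  have du0 := Pool.Agent.helper25.B2.Block.BH_along hγ ht0 (B.smooth_u _ hq0)
  have hder : Pool.Agent.helper25.B2.Block.BHD B.Np B.u (γ 0) = B.h q := by
    unfold Pool.Agent.helper25.B2.Block.BHD
    rw [B.du_Np _ hq0, h0, hu]; ring
  rw [hder] at du0
  have hslope := du0.tendsto_slope_zero_right
  have hpos : ∀ᶠ t in 𝓝[>] (0 : ℝ), 0 < B.u (γ t) := by
    have h1 : ∀ᶠ t in 𝓝[>] (0 : ℝ), 0 < t⁻¹ • (B.u (γ (0 + t)) - B.u (γ 0)) :=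
      hslope.eventually (lt_mem_nhds hh)
    filter_upwards [h1, self_mem_nhdsWithin] with t ht ht'
    rw [h0, hu, sub_zero, zero_add, smul_eq_mul] at ht
    exact (pos_iff_pos_of_mul_pos ht).1 (inv_pos.2 ht')
  have hUU : ∀ᶠ t in 𝓝[>] (0 : ℝ), γ t ∈ U := by
    have h1 : ∀ᶠ t in 𝓝 (0 : ℝ), γ t ∈ U := hcont (by rw [h0]; exact hU)
    exact h1.filter_mono nhdsWithin_le_nhds
  have hII : ∀ᶠ t in 𝓝[>] (0 : ℝ), t ∈ Ioo (-δ) δ :=
    (Ioo_mem_nhds ht0.1 ht0.2 : _ ∈ 𝓝 (0 : ℝ)) |> fun h => mem_nhdsWithin_of_mem_nhds h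
  obtain ⟨t, ht1, ht2, ht3⟩ := (hpos.and (hUU.and hII)).exists
  refine ⟨γ t, ht2, hW t ht3, (hH t ht3).1, (hH t ht3).2.1, (hH t ht3).2.2.1, (hH t ht3).2.2.2.1,
    (hH t ht3).2.2.2.2, ht1, ?_⟩
  have := hw t ht3
  linarith

variable {S : Geo}

/-- scalar points: `a = b = 0` -/
theorem DX4_ab {G : M3} {z n e : V3} (hF : NFrame G z n e) (hG : Gᵀ = G) {a b : ℝ}
    (h : a • vecMulVec z (G *ᵥ z) + b • vecMulVec n (G *ᵥ n) = 0) : a = 0 ∧ b = 0 := by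
  have hnz : bil G n z = 1 := by rw [GA_bil_symm hG]; exact hF.zn
  have hz0 : z ≠ 0 := by
    rintro rfl
    have := hF.zn
    simp [bil] at this
  have hn0 : n ≠ 0 := by
    rintro rfl
    have := hF.zn
    simp [bil] at this
  have e1 : (G *ᵥ z) ⬝ᵥ n = 1 := by rw [dotProduct_comm]; exact hnz
  have e2 : (G *ᵥ n) ⬝ᵥ n = 0 := by rw [dotProduct_comm]; exact hF.nn
  have e3 : (G *ᵥ z) ⬝ᵥ z = 0 := by rw [dotProduct_comm]; exact hF.zz
  have e4 : (G *ᵥ n) ⬝ᵥ z = 1 := by rw [dotProduct_comm]; exact hF.zn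
  constructor
  · have h1 := congrArg (fun M : M3 => M *ᵥ n) h
    simp only [Matrix.add_mulVec, Matrix.smul_mulVec, GA_vecMulVec_mulVec, e1, e2, zero_smul, smul_zero,
      add_zero, one_smul, Matrix.zero_mulVec] at h1
    exact (smul_eq_zero.1 h1).resolve_right hz0
  · have h1 := congrArg (fun M : M3 => M *ᵥ z) h
    simp only [Matrix.add_mulVec, Matrix.smul_mulVec, GA_vecMulVec_mulVec, e3, e4, zero_smul, smul_zero,
      zero_add, one_smul, Matrix.zero_mulVec] at h1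
    exact (smul_eq_zero.1 h1).resolve_right hn0

namespace Roots
variable (R : Roots S)

/-- data of the block at a scalar point -/
theorem DX4_scalar (hNC : S.NC) {q : E4} (hq : q ∈ R.S2) (hN : R.Nn q = 0) :
    ∃ (B : Block E4) (z n e : E4 → V3), q ∈ B.W ∧ BlockOf S B z n e ∧ B.A ∧ B.NZ ∧ B.W ⊆ R.N ∧
      (∀ x ∈ B.W, B.l x = R.far x ∧ B.s x = R.m x ∧ B.h x = R.h x ∧
        R.X x = B.u x • z x + B.v x • n x ∧ R.Xg x = B.u x • B.Np x + B.v x • B.Nm x ∧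
        (x ∈ R.S2 ↔ B.a x * B.b x = 0) ∧
        R.P3 x = vecMulVec (e x) (S.G x *ᵥ e x) ∧
        R.Nn x = B.a x • vecMulVec (z x) (S.G x *ᵥ z x) + B.b x • vecMulVec (n x) (S.G x *ᵥ n x)) ∧
      B.a q = 0 ∧ B.b q = 0 ∧ B.u q = 0 ∧ B.v q = 0 := by
  obtain ⟨B, z, n, e, hqW, hBO, hA, hNZ, hWN, hx⟩ := block_at R hNC hq
  have h1 := (hx q hqW).2.2.2.2.2.2.2
  rw [hN] at h1
  obtain ⟨ha, hb⟩ := DX4_ab (hBO.frame q hqW) (S.symm q hq.1) h1.symm
  exact ⟨B, z, n, e, hqW, hBO, hA, hNZ, hWN, hx, ha, hb, hA.1 q hqW ha, hA.2 q hqW hb⟩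

/-- DX4: from a scalar point with `h > 0` there start points of `Gs` with `X ≠ 0` -/
theorem DX4 (hNC : S.NC) {q : E4} (hq : q ∈ R.S2) (hN : R.Nn q = 0) (hh : 0 < R.h q)
    {U : Set E4} (hU : U ∈ 𝓝 q) :
    ∃ x ∈ U, x ∈ R.Gs (R.τ q) (R.far q) (R.h q) ∧ R.X x ≠ 0 := by
  obtain ⟨B, z, n, e, hqW, hBO, hA, hNZ, hWN, hx, ha, hb, hu, hv⟩ := R.DX4_scalar hNC hq hN
  have hhq : B.h q = R.h q := (hx q hqW).2.2.1
  obtain ⟨x, hxU, hxW, hbx, hvx, hhx, hsx, hlx, hux, hux2⟩ :=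
    DX4_curve B hA hqW ha hb hu (by rw [hhq]; exact hh) hU
  obtain ⟨k1, k2, k3, k4, k5, k6, k7, k8⟩ := hx x hxW
  obtain ⟨j1, j2, j3, -⟩ := hx q hqW
  have hS2 : x ∈ R.S2 := k6.2 (by rw [hbx, mul_zero])
  have hX : R.X x = B.u x • z x := by rw [k4, hvx, zero_smul, add_zero]
  have hz0 : z x ≠ 0 := by
    intro h0
    have := (hBO.frame x hxW).zn
    rw [h0] at this
    simp [bil] at this
  refine ⟨x, hxU, ⟨hS2, ?_, ?_, ?_, ?_⟩, ?_⟩
  · rw [← m_S2 R hS2, ← k2, hsx, j2, m_S2 R hq]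
  · rw [← k1, hlx, j1]
  · rw [← k3, hhx, j3]
  · rw [k8, hbx, zero_smul, add_zero, hX, mulVec_smul, smul_vecMulVec, vecMulVec_smul, smul_smul,
      smul_smul, ← hhq, ← hux2, sq]
  · rw [hX]
    exact smul_ne_zero hux.ne' hz0

end Roots

end Pool.Agent.helper68.B2
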