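import Pool.Agent.helper18.B2.DX3
import Pool.Agent.helper18.B2.DX4
import Pool.Agent.helper80.B2.W1
import Pool.Agent.helper97.B2.DX2

/-! # MP_b2b189_gt (S13780), b2:DX5: an orbit which comes from a zero and stays away from the zeros later -/

set_option autoImplicit false

namespace Pool.Agent.helper68.B2

open scoped ContDiff Topology Matrix
open Matrix Set
open Pool.Agent.helper25.B2 (Sol Block)

/-- a curve whose velocity decays exponentially at `-∞` has a limit there -/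
theorem DX5_lim {E : Type*} [NormedAddCommGroup E] [NormedSpace ℝ E] [CompleteSpace E] {y y' : ℝ → E}
    {k M : ℝ} (hk : 0 < k) (hy : ∀ t ≤ 0, HasDerivAt y (y' t) t) (hM : ∀ t ≤ 0, ‖y' t‖ ≤ Real.exp (k * t) * M) :
    ∃ z, Filter.Tendsto y Filter.atBot (𝓝 z) := by
  have hM0 : 0 ≤ M := by
    have := (norm_nonneg _).trans (hM 0 le_rfl)
    simpa using this
  -- increments
  have hinc : ∀ s t : ℝ, s ≤ t → t ≤ 0 → ‖y t - y s‖ ≤ M / k * Real.exp (k * t) := by
    intro s t hst ht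
    have h1 := image_norm_le_of_norm_deriv_right_le_deriv_boundary (f := fun r => y r - y s)
      (f' := y') (a := s) (b := t)
      (B := fun r => M / k * (Real.exp (k * r) - Real.exp (k * s)))
      (B' := fun r => Real.exp (k * r) * M)
      (fun r hr => ((hy r (hr.2.trans ht)).sub_const (y s)).continuousAt.continuousWithinAt)
      (fun r hr => ((hy r (hr.2.le.trans ht)).sub_const (y s)).hasDerivWithinAt)
      (by simp)
      (fun r => by
        have e1 : HasDerivAt (fun r : ℝ => Real.exp (k * r)) (Real.exp (k * r) * k) r := by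
          have := ((hasDerivAt_id r).const_mul k).exp
          simpa using this
        have e3 := (e1.sub_const (Real.exp (k * s))).const_mul (M / k)
        refine e3.congr_deriv ?_
        field_simp)
      (fun r hr => hM r (hr.2.le.trans ht)) (right_mem_Icc.2 hst)
    refine h1.trans ?_
    have e1 := Real.exp_pos (k * s)
    have e2 : 0 ≤ M / k := by positivity
    nlinarith
  have hexp : Filter.Tendsto (fun t : ℝ => M / k * Real.exp (k * t)) Filter.atBot (𝓝 0) := by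
    have h1 : Filter.Tendsto (fun t : ℝ => k * t) Filter.atBot Filter.atBot :=
      Filter.tendsto_id.const_mul_atBot hk
    have h2 := (Real.tendsto_exp_atBot.comp h1).const_mul (M / k)
    simpa using h2
  have hC : Cauchy (Filter.map y Filter.atBot) := by
    rw [Metric.cauchy_iff]
    refine ⟨inferInstance, fun ε hε => ?_⟩
    have h1 : ∀ᶠ t : ℝ in Filter.atBot, M / k * Real.exp (k * t) < ε / 2 :=
      hexp.eventually (gt_mem_nhds (by linarith))
    obtain ⟨T, hT1, hT0⟩ := (h1.and (Filter.eventually_le_atBot (0 : ℝ))).exists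
    refine ⟨y '' Iic T, Filter.image_mem_map (Filter.Iic_mem_atBot T), ?_⟩
    rintro _ ⟨s, hs, rfl⟩ _ ⟨t, ht, rfl⟩
    have e1 := hinc s T hs hT0
    have e2 := hinc t T ht hT0
    rw [dist_eq_norm]
    have e3 : y s - y t = (y T - y t) - (y T - y s) := by abel
    rw [e3]
    have e4 := norm_sub_le (y T - y t) (y T - y s)
    linarith
  obtain ⟨z, hz⟩ := cauchy_map_iff_exists_tendsto.1 hC
  exact ⟨z, hz⟩

theorem DX5_fld {v : V3} {x : E4} (hx : x ≠ 0) (h : fld v x = 0) : v = 0 := by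
  funext i
  have h1 : inner ℝ (J i x) (fld v x) = (0 : ℝ) := by rw [h, inner_zero_right]
  have h2 : inner ℝ (J i x) (fld v x) = v i * ‖x‖ ^ 2 := by
    unfold fld
    rw [inner_sum]
    simp only [inner_smul_right, W1_JJ]
    simp
  rw [h2] at h1
  have h3 : ‖x‖ ^ 2 ≠ 0 := pow_ne_zero 2 (norm_ne_zero_iff.2 hx)
  exact (mul_eq_zero.1 h1).resolve_right h3

variable {S : Geo}

namespace Roots
variable (R : Roots S)

theorem DX5_Xg {x : E4} (hx : x ≠ 0) (h : R.Xg x = 0) : R.X x = 0 := DX5_fld hx h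

theorem DX5_Nn {c b h₀ : ℝ} (hh : h₀ ≠ 0) {x : E4} (hx : x ∈ R.Gs c b h₀) (h : R.X x = 0) :
    R.Nn x = 0 := by
  have h1 := hx.2.2.2.2
  rw [h, mulVec_zero, vecMulVec_zero] at h1
  exact (smul_eq_zero.1 h1).resolve_left hh

/-- DX3 at a scalar point of the geometry -/
theorem DX5_short (hNC : S.NC) {q : E4} (hq : q ∈ R.S2) (hN : R.Nn q = 0) (hh : 0 < R.h q) :
    ∃ r C : ℝ, 0 < r ∧ 0 < C ∧ R.Xg q = 0 ∧ ∀ y : ℝ → E4, (∀ t ≤ 0, HasDerivAt y (R.Xg (y t)) t) →
      ‖y 0 - q‖ < r → ‖R.Xg (y 0)‖ < r → ∀ t ≤ 0, ‖y t - y 0‖ ≤ C * ‖R.Xg (y 0)‖ ∧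
        ‖R.Xg (y t)‖ ≤ Real.exp (R.h q * t / 2) * ‖R.Xg (y 0)‖ := by
  obtain ⟨B, z, n, e, hqW, hBO, hA, hNZ, hWN, hx, ha, hb, hu, hv⟩ := R.DX4_scalar hNC hq hN
  have hhq : B.h q = R.h q := (hx q hqW).2.2.1
  obtain ⟨r, C, hr, hC, H⟩ := DX3 B hqW ha hb hu hv (by rw [hhq]; exact hh) R.Xg
    (fun x hxW => (hx x hxW).2.2.2.2.1)
  refine ⟨r, C, hr, hC, ?_, fun y hy h1 h2 t ht => ?_⟩
  · rw [(hx q hqW).2.2.2.2.1, hu, hv, zero_smul, zero_smul, add_zero]
  · obtain ⟨-, h3, h4⟩ := H y hy h1 h2 t ht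
    rw [hhq] at h4
    exact ⟨h3, h4⟩

/-- DX5: an orbit of `X` which comes from a zero of `X` and stays away from the zeros in the future -/
theorem DX5 (hNC : S.NC) {q : E4} (hq : q ∈ R.S2) (hN : R.Nn q = 0) (hh : 0 < R.h q) :
    ∃ (y : ℝ → E4) (z : E4) (κ : ℝ), Sol R.Xg R.N y univ ∧ 0 < κ ∧
      (∀ t, y t ∈ R.Gs (R.τ q) (R.far q) (R.h q) ∧ ‖y t‖ = ‖y 0‖) ∧
      Filter.Tendsto y Filter.atBot (𝓝 z) ∧ z ∈ R.Gs (R.τ q) (R.far q) (R.h q) ∧ R.X z = 0 ∧
      ∀ t, 0 ≤ t → κ ≤ ‖R.Xg (y t)‖ := by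
  obtain ⟨r, C, hr, hC, hXq, H⟩ := R.DX5_short hNC hq hN hh
  have hqN : q ∈ R.N := S2_sub_N R hq
  have hcb : R.far q ≠ R.τ q := ((far_S2 R hqN).1 hq).2
  have hcX : ∀ x ∈ R.N, ContinuousAt R.Xg x := fun x hx => (smN R hx).2.2.2.2.2.2.2.continuousAt
  -- the starting point
  have hU : {x | ‖x - q‖ < r ∧ ‖R.Xg x‖ < r} ∈ 𝓝 q := by
    have h1 : ∀ᶠ x in 𝓝 q, ‖x - q‖ < r := by
      have : ContinuousAt (fun x => ‖x - q‖) q := by fun_prop
      exact this.eventually_lt continuousAt_const (by simpa using hr)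
    have h2 : ∀ᶠ x in 𝓝 q, ‖R.Xg x‖ < r :=
      (hcX q hqN).norm.eventually_lt continuousAt_const (by rw [hXq, norm_zero]; exact hr)
    exact h1.and h2
  obtain ⟨x, ⟨hx1, hx2⟩, hxG, hxX⟩ := R.DX4 hNC hq hN hh hU
  have hx0 : x ≠ 0 := hxG.1.1
  obtain ⟨y, hy0, hyS, hyG⟩ := DX2 R hNC hcb hh.ne' hxG
  have hder : ∀ t, HasDerivAt y (R.Xg (y t)) t := fun t => (hyS t (mem_univ t)).2
  have hest := H y (fun t _ => hder t) (by rw [hy0]; exact hx1) (by rw [hy0]; exact hx2)
  -- limits of points of the curve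
  have hlimG : ∀ (l : Filter ℝ) [l.NeBot] (z : E4), Filter.Tendsto y l (𝓝 z) →
      z ∈ R.Gs (R.τ q) (R.far q) (R.h q) ∧ Filter.Tendsto (fun t => R.Xg (y t)) l (𝓝 (R.Xg z)) := by
    intro l _ z hz
    have hnz : ‖z‖ = ‖x‖ := by
      have h1 : Filter.Tendsto (fun t => ‖y t‖) l (𝓝 ‖z‖) := hz.norm
      have h2 : (fun t => ‖y t‖) = fun _ => ‖x‖ := funext fun t => (hyG t).2
      rw [h2] at h1
      exact tendsto_nhds_unique h1 tendsto_const_nhds |>.symm ▸ rfl
    have hz0 : z ≠ 0 := by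
      rw [← norm_ne_zero_iff, hnz]; exact norm_ne_zero_iff.2 hx0
    have hzG : z ∈ R.Gs (R.τ q) (R.far q) (R.h q) := by
      refine Gs_closed R hcb hz0 (mem_closure_of_tendsto hz ?_)
      exact Filter.Eventually.of_forall fun t => (hyG t).1
    exact ⟨hzG, (hcX z (S2_sub_N R hzG.1)).tendsto.comp hz⟩
  -- the limit at `-∞`
  obtain ⟨z, hz⟩ := DX5_lim (y := y) (y' := fun t => R.Xg (y t)) (k := R.h q / 2) (M := ‖R.Xg (y 0)‖)
    (by linarith) (fun t _ => hder t) (fun t ht => by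
      have := (hest t ht).2
      have e1 : R.h q / 2 * t = R.h q * t / 2 := by ring
      rw [e1]; exact this)
  obtain ⟨hzG, hzX⟩ := hlimG _ z hz
  have hXz : R.Xg z = 0 := by
    have h1 : Filter.Tendsto (fun t : ℝ => Real.exp (R.h q * t / 2) * ‖R.Xg (y 0)‖) Filter.atBot (𝓝 0) := by
      have h2 : Filter.Tendsto (fun t : ℝ => R.h q * t / 2) Filter.atBot Filter.atBot := by
        have h3 : Filter.Tendsto (fun t : ℝ => R.h q / 2 * t) Filter.atBot Filter.atBot :=
          Filter.tendsto_id.const_mul_atBot (by linarith)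
        refine h3.congr fun t => by ring
      have h4 := (Real.tendsto_exp_atBot.comp h2).mul_const ‖R.Xg (y 0)‖
      simpa using h4
    have h2 : Filter.Tendsto (fun t => R.Xg (y t)) Filter.atBot (𝓝 0) := by
      rw [tendsto_zero_iff_norm_tendsto_zero]
      refine tendsto_of_tendsto_of_tendsto_of_le_of_le' tendsto_const_nhds h1
        (Filter.Eventually.of_forall fun t => norm_nonneg _) ?_
      filter_upwards [Filter.eventually_le_atBot (0 : ℝ)] with t ht using (hest t ht).2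
    exact tendsto_nhds_unique hzX h2
  -- the lower bound
  have hκ : ∃ κ : ℝ, 0 < κ ∧ ∀ t, 0 ≤ t → κ ≤ ‖R.Xg (y t)‖ := by
    by_contra hcon
    push Not at hcon
    have h1 : ∀ n : ℕ, ∃ t, 0 ≤ t ∧ ‖R.Xg (y t)‖ < 1 / ((n : ℝ) + 1) := fun n =>
      hcon _ (by positivity)
    choose t ht0 ht1 using h1
    obtain ⟨p, -, φ, hφ, hp⟩ := (isCompact_sphere (0 : E4) ‖x‖).tendsto_subseq (x := fun n => y (t n))
      (fun n => by rw [mem_sphere_zero_iff_norm]; exact (hyG (t n)).2)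
    have hXn : Filter.Tendsto (fun n => R.Xg (y (t (φ n)))) Filter.atTop (𝓝 0) := by
      rw [tendsto_zero_iff_norm_tendsto_zero]
      have h2 : Filter.Tendsto (fun n => ‖R.Xg (y (t n))‖) Filter.atTop (𝓝 0) :=
        squeeze_zero (fun n => norm_nonneg _) (fun n => (ht1 n).le) tendsto_one_div_add_atTop_nhds_zero_nat
      exact h2.comp hφ.tendsto_atTop
    have hnp : p ∈ R.Gs (R.τ q) (R.far q) (R.h q) ∧
        Filter.Tendsto (fun n => R.Xg (y (t (φ n)))) Filter.atTop (𝓝 (R.Xg p)) := by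
      have hp0 : p ≠ 0 := by
        have h2 : Filter.Tendsto (fun n => ‖y (t (φ n))‖) Filter.atTop (𝓝 ‖p‖) := hp.norm
        have h3 : (fun n => ‖y (t (φ n))‖) = fun _ => ‖x‖ := funext fun n => (hyG _).2
        rw [h3] at h2
        have h4 := tendsto_nhds_unique h2 tendsto_const_nhds
        rw [← norm_ne_zero_iff, h4]; exact norm_ne_zero_iff.2 hx0
      have hpG : p ∈ R.Gs (R.τ q) (R.far q) (R.h q) := by
        refine Gs_closed R hcb hp0 (mem_closure_of_tendsto hp ?_)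
        exact Filter.Eventually.of_forall fun n => (hyG _).1
      exact ⟨hpG, (hcX p (S2_sub_N R hpG.1)).tendsto.comp hp⟩
    have hXp : R.Xg p = 0 := tendsto_nhds_unique hnp.2 hXn
    have hXp' : R.X p = 0 := R.DX5_Xg hnp.1.1.1 hXp
    have hNp : R.Nn p = 0 := R.DX5_Nn hh.ne' hnp.1 hXp'
    have hhp : R.h p = R.h q := hnp.1.2.2.2.1
    obtain ⟨r', C', hr', hC', -, H'⟩ := R.DX5_short hNC hnp.1.1 hNp (by rw [hhp]; exact hh)
    -- `y 0` is the limit `p`
    have h2 : ∀ᶠ n in Filter.atTop, ‖y 0 - y (t (φ n))‖ ≤ C' * ‖R.Xg (y (t (φ n)))‖ := by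
      have e1 : ∀ᶠ n in Filter.atTop, ‖y (t (φ n)) - p‖ < r' := by
        have := (tendsto_iff_norm_sub_tendsto_zero.1 hp)
        exact this.eventually (gt_mem_nhds hr')
      have e2 : ∀ᶠ n in Filter.atTop, ‖R.Xg (y (t (φ n)))‖ < r' := by
        have := tendsto_zero_iff_norm_tendsto_zero.1 hXn
        exact this.eventually (gt_mem_nhds hr')
      filter_upwards [e1, e2] with n hn1 hn2
      have h3 := H' (fun s => y (s + t (φ n))) (fun s _ => (hder _).comp_add_const s (t (φ n)))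
        (by simpa using hn1) (by simpa using hn2) (-t (φ n)) (by linarith [ht0 (φ n)])
      have h4 := h3.1
      simp only [neg_add_cancel, zero_add] at h4
      exact h4
    have h3 : Filter.Tendsto (fun n => ‖y 0 - y (t (φ n))‖) Filter.atTop (𝓝 0) := by
      have e1 : Filter.Tendsto (fun n => C' * ‖R.Xg (y (t (φ n)))‖) Filter.atTop (𝓝 0) := by
        have := (tendsto_zero_iff_norm_tendsto_zero.1 hXn).const_mul C'
        simpa using this
      exact tendsto_of_tendsto_of_tendsto_of_le_of_le' tendsto_const_nhds e1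
        (Filter.Eventually.of_forall fun t => norm_nonneg _) h2
    have h4 : Filter.Tendsto (fun n => ‖y 0 - y (t (φ n))‖) Filter.atTop (𝓝 ‖y 0 - p‖) :=
      (tendsto_const_nhds.sub hp).norm
    have h5 : ‖y 0 - p‖ = 0 := tendsto_nhds_unique h4 h3
    have h6 : x = p := by rw [← hy0]; exact sub_eq_zero.1 (norm_eq_zero.1 h5)
    exact hxX (h6 ▸ hXp')
  obtain ⟨κ, hκ0, hκ⟩ := hκ
  exact ⟨y, z, κ, hyS, hκ0, fun t => ⟨(hyG t).1, by rw [(hyG t).2, hy0]⟩, hz, hzG,
    R.DX5_Xg hzG.1.1 hXz, hκ⟩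

end Roots

end Pool.Agent.helper68.B2
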