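import Pool.Agent.helper68.B2.Defs3
import Pool.Agent.helper49.B2.BK
import Pool.Agent.helper65.B2.BC

/-! # MP_b2b189_gt (S13780), b2:DX3: backward curves of the gradient field near a scalar point are short -/

set_option autoImplicit false

namespace Pool.Agent.helper68.B2

open scoped ContDiff Topology Matrix
open Matrix Set
open Pool.Agent.helper25.B2 (Sol Block)

section ode
variable {E : Type*} [NormedAddCommGroup E] [InnerProductSpace ℝ E]

/-- decay of the velocity while the reversed curve stays in the ball. -/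
theorem DX3_decay {X : E → E} {q : E} {ρ h : ℝ}
    (hd : ∀ x ∈ Metric.ball q ρ, DifferentiableAt ℝ X x)
    (hi : ∀ x ∈ Metric.ball q ρ, h / 2 * ‖X x‖ ^ 2 ≤ inner ℝ (X x) (fderiv ℝ X x (X x)))
    {z : ℝ → E} {T : ℝ} (hT : 0 ≤ T) (hz : ∀ t ∈ Icc 0 T, HasDerivAt z (-X (z t)) t)
    (hb : ∀ t ∈ Icc 0 T, z t ∈ Metric.ball q ρ) :
    ‖X (z T)‖ ≤ Real.exp (-(h * T / 2)) * ‖X (z 0)‖ := by
  have h1 : ∀ t ∈ Icc 0 T, HasDerivAt (fun t => X (z t)) (fderiv ℝ X (z t) (-X (z t))) t := by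
    intro t ht
    exact ((hd _ (hb t ht)).hasFDerivAt).comp_hasDerivAt t (hz t ht)
  have h2 : ∀ t ∈ Icc 0 T, HasDerivAt (fun t => Real.exp (h * t) * ‖X (z t)‖ ^ 2)
      (Real.exp (h * t) * h * ‖X (z t)‖ ^ 2 +
        Real.exp (h * t) * (2 * inner ℝ (X (z t)) (fderiv ℝ X (z t) (-X (z t))))) t := by
    intro t ht
    have e1 : HasDerivAt (fun t : ℝ => Real.exp (h * t)) (Real.exp (h * t) * h) t := by
      have := ((hasDerivAt_id t).const_mul h).exp
      simpa using this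
    exact e1.mul (h1 t ht).norm_sq
  have h3 : AntitoneOn (fun t => Real.exp (h * t) * ‖X (z t)‖ ^ 2) (Icc 0 T) := by
    apply antitoneOn_of_deriv_nonpos (convex_Icc 0 T)
    · intro t ht
      exact (h2 t ht).continuousAt.continuousWithinAt
    · intro t ht
      rw [interior_Icc] at ht
      exact (h2 t (Ioo_subset_Icc_self ht)).differentiableAt.differentiableWithinAt
    · intro t ht
      rw [interior_Icc] at ht
      have ht' := Ioo_subset_Icc_self ht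
      rw [(h2 t ht').deriv]
      have e1 := hi _ (hb t ht')
      rw [map_neg, inner_neg_right]
      have e2 := Real.exp_pos (h * t)
      nlinarith
  have h4 := h3 (left_mem_Icc.2 hT) (right_mem_Icc.2 hT) hT
  simp only [mul_zero, Real.exp_zero, one_mul] at h4
  have h5 : ‖X (z T)‖ ^ 2 ≤ (Real.exp (-(h * T / 2)) * ‖X (z 0)‖) ^ 2 := by
    rw [mul_pow, ← Real.exp_nat_mul]
    have e1 : ((2 : ℕ) : ℝ) * (-(h * T / 2)) = -(h * T) := by push_cast; ring
    rw [e1, Real.exp_neg, inv_mul_eq_div, le_div_iff₀ (Real.exp_pos _), mul_comm]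
    exact h4
  exact le_of_sq_le_sq h5 (by positivity)

/-- length while the reversed curve stays in the ball. -/
theorem DX3_len {X : E → E} {q : E} {ρ h : ℝ} (hh : 0 < h)
    (hd : ∀ x ∈ Metric.ball q ρ, DifferentiableAt ℝ X x)
    (hi : ∀ x ∈ Metric.ball q ρ, h / 2 * ‖X x‖ ^ 2 ≤ inner ℝ (X x) (fderiv ℝ X x (X x)))
    {z : ℝ → E} {T : ℝ} (hT : 0 ≤ T) (hz : ∀ t ∈ Icc 0 T, HasDerivAt z (-X (z t)) t)
    (hb : ∀ t ∈ Ico 0 T, z t ∈ Metric.ball q ρ) :
    ‖z T - z 0‖ ≤ 2 / h * ‖X (z 0)‖ := by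
  have h1 := image_norm_le_of_norm_deriv_right_le_deriv_boundary (f := fun t => z t - z 0)
    (f' := fun t => -X (z t)) (a := 0) (b := T)
    (B := fun t => 2 / h * ‖X (z 0)‖ * (1 - Real.exp (-(h * t / 2))))
    (B' := fun t => Real.exp (-(h * t / 2)) * ‖X (z 0)‖)
    (fun t ht => ((hz t ht).sub_const (z 0)).continuousAt.continuousWithinAt)
    (fun t ht => ((hz t (Ico_subset_Icc_self ht)).sub_const (z 0)).hasDerivWithinAt)
    (by simp)
    (fun t => by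
      have e1 : HasDerivAt (fun t : ℝ => Real.exp (-(h * t / 2))) (Real.exp (-(h * t / 2)) * (-(h / 2))) t := by
        have e2 : HasDerivAt (fun t : ℝ => -(h * t / 2)) (-(h / 2)) t := by
          have := (((hasDerivAt_id t).const_mul h).div_const 2).fun_neg
          simpa using this
        exact e2.exp
      have e3 := (e1.const_sub 1).const_mul (2 / h * ‖X (z 0)‖)
      refine e3.congr_deriv ?_
      field_simp)
    (fun t ht => by
      rw [norm_neg]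
      exact DX3_decay hd hi ht.1 (fun s hs => hz s ⟨hs.1, hs.2.trans ht.2.le⟩)
        (fun s hs => hb s ⟨hs.1, hs.2.trans_lt ht.2⟩)) (right_mem_Icc.2 hT)
  refine h1.trans ?_
  have e1 := Real.exp_pos (-(h * T / 2))
  have e2 : (0 : ℝ) ≤ 2 / h * ‖X (z 0)‖ := by positivity
  nlinarith

theorem DX3_ode {X : E → E} {q : E} {ρ h : ℝ} (hh : 0 < h)
    (hd : ∀ x ∈ Metric.ball q ρ, DifferentiableAt ℝ X x)
    (hi : ∀ x ∈ Metric.ball q ρ, h / 2 * ‖X x‖ ^ 2 ≤ inner ℝ (X x) (fderiv ℝ X x (X x)))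
    {y : ℝ → E} (hy : ∀ t ≤ 0, HasDerivAt y (X (y t)) t)
    (h0 : ‖y 0 - q‖ + 2 / h * ‖X (y 0)‖ < ρ) :
    ∀ t ≤ 0, y t ∈ Metric.ball q ρ ∧ ‖y t - y 0‖ ≤ 2 / h * ‖X (y 0)‖ ∧
      ‖X (y t)‖ ≤ Real.exp (h * t / 2) * ‖X (y 0)‖ := by
  set z : ℝ → E := fun s => y (-s) with hzdef
  have hz0 : z 0 = y 0 := by simp [hzdef]
  have hz : ∀ t, 0 ≤ t → HasDerivAt z (-X (z t)) t := by
    intro t ht
    have h1 := (hy (-t) (by linarith)).scomp t (hasDerivAt_neg t)
    rw [neg_smul, one_smul] at h1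
    exact h1
  have hball : ∀ T, 0 ≤ T → z T ∈ Metric.ball q ρ := by
    by_contra hcon
    push Not at hcon
    obtain ⟨T, hT, hTb⟩ := hcon
    -- first exit time
    set A : Set ℝ := {s | s ∈ Icc 0 T ∧ ρ ≤ ‖z s - q‖} with hA
    have hAc : IsCompact A := by
      have hc : ContinuousOn (fun s => ‖z s - q‖) (Icc 0 T) := fun s hs =>
        ((hz s hs.1).sub_const q).continuousAt.norm.continuousWithinAt
      have := hc.preimage_isClosed_of_isClosed isClosed_Icc (isClosed_Ici (a := ρ))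
      exact isCompact_Icc.of_isClosed_subset this (fun s hs => hs.1)
    have hAne : A.Nonempty := ⟨T, ⟨hT, le_rfl⟩, by
      rw [Metric.mem_ball, dist_eq_norm, not_lt] at hTb
      exact hTb⟩
    obtain ⟨s, hs, hmin⟩ := hAc.exists_isMinOn hAne continuous_id.continuousOn
    have h1 : ∀ t ∈ Ico 0 s, z t ∈ Metric.ball q ρ := by
      intro t ht
      rw [Metric.mem_ball, dist_eq_norm]
      by_contra h2
      push Not at h2
      have h3 : s ≤ t := hmin (⟨⟨ht.1, ht.2.le.trans hs.1.2⟩, h2⟩ : t ∈ A)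
      linarith [ht.2]
    have h2 := DX3_len hh hd hi hs.1.1 (fun t ht => hz t ht.1) h1
    rw [hz0] at h2
    have h3 : ‖z s - q‖ ≤ ‖z s - y 0‖ + ‖y 0 - q‖ := norm_sub_le_norm_sub_add_norm_sub _ _ _
    linarith [hs.2]
  intro t ht
  have e1 : y t = z (-t) := by simp [hzdef]
  have hnt : 0 ≤ -t := by linarith
  refine ⟨e1 ▸ hball _ hnt, ?_, ?_⟩
  · have h2 := DX3_len hh hd hi hnt (fun s hs => hz s hs.1) (fun s hs => hball s hs.1)
    rwa [hz0, ← e1] at h2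
  · have h2 := DX3_decay hd hi hnt (fun s hs => hz s hs.1) (fun s hs => hball s hs.1)
    rw [hz0, ← e1] at h2
    have e2 : -(h * -t / 2) = h * t / 2 := by ring
    rwa [e2] at h2

end ode

/-- projection on the block -/
noncomputable def DX3_P (B : Block E4) (x : E4) : E4 →L[ℝ] E4 :=
  (B.cp x).smulRight (B.Np x) + (B.cm x).smulRight (B.Nm x)

/-- the gradient field of the block -/
noncomputable def DX3_Y (B : Block E4) (x : E4) : E4 := B.u x • B.Np x + B.v x • B.Nm x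

theorem DX3_smP (B : Block E4) {x : E4} (hx : x ∈ B.W) : ContDiffAt ℝ (⊤ : ℕ∞) (DX3_P B) x :=
  ((B.smooth_cp x hx).smulRight (B.smooth_Np x hx)).add
    ((B.smooth_cm x hx).smulRight (B.smooth_Nm x hx))

theorem DX3_smY (B : Block E4) {x : E4} (hx : x ∈ B.W) : ContDiffAt ℝ (⊤ : ℕ∞) (DX3_Y B) x :=
  ((B.smooth_u x hx).smul (B.smooth_Np x hx)).add
    ((B.smooth_v x hx).smul (B.smooth_Nm x hx))

theorem DX3_PY (B : Block E4) {x : E4} (hx : x ∈ B.W) : DX3_P B x (DX3_Y B x) = DX3_Y B x := by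
  simp [DX3_P, DX3_Y, B.cp_Np x hx, B.cp_Nm x hx, B.cm_Np x hx, B.cm_Nm x hx]

theorem DX3_dY (B : Block E4) {q : E4} (hq : q ∈ B.W) (ha : B.a q = 0) (hb : B.b q = 0)
    (hu : B.u q = 0) (hv : B.v q = 0) : fderiv ℝ (DX3_Y B) q = B.h q • DX3_P B q := by
  have eu := (Pool.Agent.helper25.B2.Block.BC_smooth_diff (B.smooth_u q hq)).hasFDerivAt
  have ev := (Pool.Agent.helper25.B2.Block.BC_smooth_diff (B.smooth_v q hq)).hasFDerivAt
  have ep := (Pool.Agent.helper25.B2.Block.BC_smooth_diff (B.smooth_Np q hq)).hasFDerivAt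
  have em := (Pool.Agent.helper25.B2.Block.BC_smooth_diff (B.smooth_Nm q hq)).hasFDerivAt
  have h1 := (eu.fun_smul ep).add (ev.fun_smul em)
  have h2 : fderiv ℝ (DX3_Y B) q = _ := h1.fderiv
  rw [h2]
  ext1 w
  simp only [_root_.add_apply, _root_.smul_apply, DX3_P,
    ContinuousLinearMap.smulRight_apply, hu, hv, zero_smul, zero_add, smul_add,
    Pool.Agent.helper25.B2.Block.BK_du B hq ha hu, Pool.Agent.helper25.B2.Block.BC_dv B hq hb hv, mul_smul]

namespace Roots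

/-- DX3: backward `X`-curves near a scalar point with `h > 0` are short -/
theorem DX3 (B : Block E4) {q : E4} (hq : q ∈ B.W) (ha : B.a q = 0) (hb : B.b q = 0)
    (hu : B.u q = 0) (hv : B.v q = 0) (hh : 0 < B.h q) (X : E4 → E4)
    (hX : ∀ x ∈ B.W, X x = B.u x • B.Np x + B.v x • B.Nm x) :
    ∃ r C : ℝ, 0 < r ∧ 0 < C ∧ ∀ y : ℝ → E4, (∀ t ≤ 0, HasDerivAt y (X (y t)) t) →
      ‖y 0 - q‖ < r → ‖X (y 0)‖ < r → ∀ t ≤ 0, y t ∈ B.W ∧ ‖y t - y 0‖ ≤ C * ‖X (y 0)‖ ∧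
        ‖X (y t)‖ ≤ Real.exp (B.h q * t / 2) * ‖X (y 0)‖ := by
  have hXY : ∀ x ∈ B.W, X x = DX3_Y B x := hX
  have hev : ∀ x ∈ B.W, X =ᶠ[𝓝 x] DX3_Y B := fun x hx => by
    filter_upwards [B.isOpen_W.mem_nhds hx] with y hy using hXY y hy
  -- the good ball
  have hc : ContinuousAt (fun x => ‖fderiv ℝ (DX3_Y B) x - B.h q • DX3_P B x‖) q := by
    have h1 : ContinuousAt (fderiv ℝ (DX3_Y B)) q :=
      (Pool.Agent.helper25.B2.Block.BC_smooth_fderiv (DX3_smY B hq)).continuousAt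
    have h2 : ContinuousAt (DX3_P B) q := (DX3_smP B hq).continuousAt
    exact (h1.sub (h2.const_smul (B.h q))).norm
  have h0 : ‖fderiv ℝ (DX3_Y B) q - B.h q • DX3_P B q‖ < B.h q / 2 := by
    rw [DX3_dY B hq ha hb hu hv, sub_self, norm_zero]; linarith
  have hnear : ∀ᶠ x in 𝓝 q, x ∈ B.W ∧ ‖fderiv ℝ (DX3_Y B) x - B.h q • DX3_P B x‖ < B.h q / 2 :=
    (show ∀ᶠ x in 𝓝 q, x ∈ B.W from B.isOpen_W.mem_nhds hq).and
      (hc.eventually_lt continuousAt_const h0)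
  obtain ⟨ρ, hρ, hball⟩ := Metric.eventually_nhds_iff_ball.1 hnear
  have hd : ∀ x ∈ Metric.ball q ρ, DifferentiableAt ℝ X x := fun x hx =>
    (Pool.Agent.helper25.B2.Block.BC_smooth_diff (DX3_smY B (hball x hx).1)).congr_of_eventuallyEq
      (hev x (hball x hx).1)
  have hi : ∀ x ∈ Metric.ball q ρ, B.h q / 2 * ‖X x‖ ^ 2 ≤ inner ℝ (X x) (fderiv ℝ X x (X x)) := by
    intro x hx
    obtain ⟨hxW, hxn⟩ := hball x hx
    rw [(hev x hxW).fderiv_eq, hXY x hxW]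
    set Y := DX3_Y B x with hY
    have e1 : fderiv ℝ (DX3_Y B) x Y = B.h q • Y + (fderiv ℝ (DX3_Y B) x - B.h q • DX3_P B x) Y := by
      rw [_root_.sub_apply, _root_.smul_apply, hY, DX3_PY B hxW]
      abel
    rw [e1, inner_add_right, inner_smul_right, real_inner_self_eq_norm_sq]
    have e2 : |inner ℝ Y ((fderiv ℝ (DX3_Y B) x - B.h q • DX3_P B x) Y)| ≤ B.h q / 2 * ‖Y‖ ^ 2 := by
      refine (abs_real_inner_le_norm _ _).trans ?_
      have e3 := (fderiv ℝ (DX3_Y B) x - B.h q • DX3_P B x).le_opNorm Y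
      have e4 : ‖fderiv ℝ (DX3_Y B) x - B.h q • DX3_P B x‖ * ‖Y‖ ≤ B.h q / 2 * ‖Y‖ :=
        mul_le_mul_of_nonneg_right hxn.le (norm_nonneg _)
      have e5 := norm_nonneg Y
      nlinarith
    have e6 := (abs_le.1 e2).1
    nlinarith
  have hC : 0 < 2 / B.h q := by positivity
  refine ⟨ρ / (2 * (1 + 2 / B.h q)), 2 / B.h q, by positivity, hC, ?_⟩
  intro y hy hy0 hX0 t ht
  have h3 : ‖y 0 - q‖ + 2 / B.h q * ‖X (y 0)‖ < ρ := by
    have h4 : 2 / B.h q * ‖X (y 0)‖ ≤ 2 / B.h q * (ρ / (2 * (1 + 2 / B.h q))) :=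
      mul_le_mul_of_nonneg_left hX0.le hC.le
    have h5 : (1 + 2 / B.h q) * (ρ / (2 * (1 + 2 / B.h q))) = ρ / 2 := by
      have : (1 + 2 / B.h q) ≠ 0 := by positivity
      field_simp
    nlinarith
  obtain ⟨k1, k2, k3⟩ := DX3_ode hh hd hi hy h3 t ht
  exact ⟨(hball _ k1).1, k2, k3⟩

end Roots

end Pool.Agent.helper68.B2
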